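import Pool.Agent.helper67AL.Center

/-!
MP_b0301d_al.  For every commutative ring of scalars `Φ` in which `3` is not invertible there is an
exceptional prime alternative `Φ`-algebra.
-/

namespace Pool.Agent.Results.MP_b0301d_al.EveryRingOfScalars

/-- `A` is alternative. -/
def IsAlternative (A : Type) [NonUnitalNonAssocRing A] : Prop :=
  ∀ x y : A, (x * x) * y = x * (x * y) ∧ (y * x) * x = y * (x * x)

/-- `A ≠ 0` and the product of two nonzero ideals of the `Φ`-algebra `A` is nonzero. -/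
def IsPrimeAlg (Φ A : Type) [CommRing Φ] [NonUnitalNonAssocRing A] [Module Φ A] : Prop :=
  Nontrivial A ∧
  ∀ I J : Submodule Φ A,
    (∀ a x : A, x ∈ I → a * x ∈ I ∧ x * a ∈ I) →
    (∀ a x : A, x ∈ J → a * x ∈ J ∧ x * a ∈ J) →
    (∀ x ∈ I, ∀ y ∈ J, x * y = 0) → I = ⊥ ∨ J = ⊥

/-- `A` is a Cayley–Dickson ring: it embeds by some `φ` in an octonion algebra `C` over a field `F`
(a simple nonassociative alternative algebra of dimension eight with centre `F`), the centre of `A`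
goes to `F`, and every element of `C` is a fraction `φ k / φ z` with `z ≠ 0` central in `A`. -/
def IsCayleyDicksonRing (A : Type) [NonUnitalNonAssocRing A] : Prop :=
  ∃ (F : Type) (_ : Field F) (C : Type) (_ : NonAssocRing C) (_ : Module F C)
    (_ : IsScalarTower F C C) (_ : SMulCommClass F C C),
    (∀ x y : C, (x * x) * y = x * (x * y) ∧ (y * x) * x = y * (x * x)) ∧
    Module.finrank F C = 8 ∧
    (∀ c ∈ Set.center C, ∃ a : F, c = a • (1 : C)) ∧
    Nontrivial C ∧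
    (∀ I : TwoSidedIdeal C, I = ⊥ ∨ I = ⊤) ∧
    (∃ x y z : C, (x * y) * z ≠ x * (y * z)) ∧
    ∃ φ : A →ₙ+* C, Function.Injective φ ∧
      (∀ z ∈ Set.center A, ∃ a : F, φ z = a • (1 : C)) ∧
      ∀ c : C, ∃ z ∈ Set.center A, z ≠ 0 ∧ ∃ k : A, φ z * c = φ k

open helper67AL in
theorem result :
    ∀ (Φ : Type) [CommRing Φ], ¬ IsUnit (3 : Φ) →
      ∃ (A : Type) (_ : NonUnitalNonAssocRing A) (_ : Module Φ A)
        (_ : IsScalarTower Φ A A) (_ : SMulCommClass Φ A A),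
        IsAlternative A ∧ IsPrimeAlg Φ A ∧
        (∃ x y z : A, (x * y) * z ≠ x * (y * z)) ∧
        ¬ IsCayleyDicksonRing A ∧
        (∃ o : A, ∀ x : A, o * x = x ∧ x * o = x) ∧
        ∃ z : A, z ≠ 0 ∧ ∀ x : A, (z * x) * z = 0 := by
  intro Φ _ h3
  obtain ⟨m, hm, h3m⟩ := exists_max_ideal_of_mem_nonunits (a := (3 : Φ)) h3
  let _ : Field (Φ ⧸ m) := Ideal.Quotient.field m
  have h3K : ((3 : ℕ) : Φ ⧸ m) = 0 := by
    have h : Ideal.Quotient.mk m (3 : Φ) = 0 := Ideal.Quotient.eq_zero_iff_mem.2 h3m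
    rw [map_ofNat] at h
    exact_mod_cast h
  have : CharP (Φ ⧸ m) 3 := (CharP.charP_iff_prime_eq_zero Nat.prime_three).2 h3K
  let M : Module Φ (A (Φ ⧸ m)) := Module.compHom (A (Φ ⧸ m)) (Ideal.Quotient.mk m)
  have hs : ∀ (r : Φ) (x : A (Φ ⧸ m)), r • x = (Ideal.Quotient.mk m r) • x := fun _ _ => rfl
  refine ⟨A (Φ ⧸ m), inferInstance, M, ⟨fun r u v => ?_⟩, ⟨fun r u v => ?_⟩,
    fun x y => ⟨left_alt x y, right_alt x y⟩, ⟨⟨⟨((e (Φ ⧸ m) 0 * e (Φ ⧸ m) 1 : L (Φ ⧸ m))), 0,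
      ee_ne (i := 0)⟩⟩, ?_⟩, nonassoc, not_CD, ⟨((1 : L (Φ ⧸ m)) : A (Φ ⧸ m)),
      fun x => ⟨one_mulA x, mulA_one x⟩⟩, abs_zero⟩
  · exact smul_mulA (Ideal.Quotient.mk m r) u v
  · exact (mulA_smul (Ideal.Quotient.mk m r) u v).symm
  · intro I J hI hJ h
    let f : Submodule Φ (A (Φ ⧸ m)) → Submodule (Φ ⧸ m) (L (Φ ⧸ m)) := fun I =>
      { carrier := (I : Set (A (Φ ⧸ m)))
        add_mem' := fun ha hb => I.add_mem ha hb
        zero_mem' := I.zero_mem
        smul_mem' := by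
          intro c x hx
          obtain ⟨r, rfl⟩ := Ideal.Quotient.mk_surjective c
          exact I.smul_mem r hx }
    have hf : ∀ I, f I = ⊥ → I = ⊥ := by
      intro I hI
      rw [eq_bot_iff]
      intro x hx
      have hx' : (x : L (Φ ⧸ m)) ∈ f I := hx
      rw [hI] at hx'
      exact hx'
    rcases prime (I := f I) (J := f J) hI hJ (fun x y hx hy => h x hx y hy) with h1 | h1
    · exact Or.inl (hf I h1)
    · exact Or.inr (hf J h1)

end Pool.Agent.Results.MP_b0301d_al.EveryRingOfScalars
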